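import Mathlib
import Pool.Agent.R126.Ix.Tower

/-!
# Gaps between the simplicial index and the topological index of order complexes

All definitions (`QG G n` = the poset `Q_n G`, free finite `G`-posets `FreePoset G`, the order
complex `X.Δ.K`, geometric realisation, `IsInd`, `IsSind`) are in `Pool/Agent/R126/Ix/Defs.lean`.

For every nontrivial finite group `G` and all `m > n ≥ 1` there is a finite free `G`-poset `P` with
`sind Δ(P) = m` and `ind Δ(P) = n`.
-/

set_option autoImplicit false

namespace Pool.Agent.Results.MP_6f03fc_co.AllGaps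

open Pool.Agent.R126.Ix

universe u

theorem result (G : Type u) [Group G] [Fintype G] [Nontrivial G] (m n : ℕ) (hn : 1 ≤ n)
    (hnm : n < m) : ∃ X : FreePoset G, IsSind G X.Δ.K m ∧ IsInd G X.Δ.K n := by
  obtain ⟨X, h1, h2, -⟩ := exists_gap G hn hnm
  exact ⟨X, h2, h1⟩

end Pool.Agent.Results.MP_6f03fc_co.AllGaps
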